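import Pool.Agent.H24.KSStatement

open CliffordAlgebra
open Pool.Agent.H24.KSS

namespace Pool.Agent.H19.KSE

section Defs
variable {V V' A A' : Type} [AddCommGroup V] [Module ℚ V] [AddCommGroup V'] [Module ℚ V']
  [AddCommGroup A] [Module ℚ A] [AddCommGroup A'] [Module ℚ A']

/-- `f : V → V'` is, up to a rational factor, the composition of `j : V → End A'` with the adjoint
of `e : V' → End A'` for the form `q'` on `V'` and the trace form on `End A'`:
`q'(f v, w) = c tr(j(v) e(w))`. -/
def IsTraceAdjoint (q' : QuadraticForm ℚ V') (f : V → V') (j : V → A' → A')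
    (e : V' → A' → A') : Prop :=
  ∃ c : ℚ, ∀ v w, ∃ φ : A' →ₗ[ℚ] A', (∀ x, φ x = j v (e w x)) ∧
    QuadraticMap.polar q' (f v) w = c * LinearMap.trace ℚ A' φ

/-- A class of maps `V → V'`, `V → End A`, `V → End A'`, `V' → End A'`, closed under composition,
under finite sums of compositions with morphisms of Hodge structures between the weight one
structures on `A` and `A'`, and under adjoints for the form of `V'` and the trace form of `End A'`.
Example: the maps induced by algebraic cycles, if `V` and `V'` are parts of the second cohomology of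
surfaces and `A`, `A'` the first cohomology of abelian varieties. -/
structure CorrespondenceClass (H : HodgeStructure A 1) (H' : HodgeStructure A' 1) (V : Type)
    (q' : QuadraticForm ℚ V') where
  /-- the maps `V → V'` -/
  mor : Set (V → V')
  /-- the maps `V → End A` -/
  act : Set (V → A → A)
  /-- the maps `V → End A'` -/
  act' : Set (V → A' → A')
  /-- the maps `V' → End A'` -/
  emb' : Set (V' → A' → A')
  comp_mem : ∀ e ∈ emb', ∀ f ∈ mor, (fun v => e (f v)) ∈ act'
  pull_mem : ∀ j' ∈ act', ∀ j, IsSumOfTransforms H H' j j' → j ∈ act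
  push_mem : ∀ j ∈ act, ∀ j', IsSumOfTransforms H' H j' j → j' ∈ act'
  adj_mem : ∀ j' ∈ act', ∀ e ∈ emb', ∀ f, IsTraceAdjoint q' f j' e → f ∈ mor

end Defs

end Pool.Agent.H19.KSE
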