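import Pool.Agent.H19.KSE.Defs
import Pool.Agent.H24.KSFinite

open scoped TensorProduct
open CliffordAlgebra
open Pool.Agent.H24

namespace Pool.Agent.H19.KSE

section Trace
variable {V : Type} [AddCommGroup V] [Module ℚ V]

lemma ks_comp_apply (Q : QuadraticForm ℚ V) (v₀ a b : V) (x : even Q) :
    ((KS.ksEmbedding Q v₀ a (KS.ksEmbedding Q v₀ b x) : even Q) : CliffordAlgebra Q)
      = Q v₀ • (ι Q a * ι Q b * (x : CliffordAlgebra Q)) := by
  rw [KS.ksEmbedding_apply, KS.ksEmbedding_apply]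
  have h : ι Q a * (ι Q b * (x : CliffordAlgebra Q) * ι Q v₀) * ι Q v₀ =
      (ι Q a * ι Q b * (x : CliffordAlgebra Q)) * (ι Q v₀ * ι Q v₀) := by
    simp only [mul_assoc]
  rw [h, ι_sq_scalar, Algebra.algebraMap_eq_smul_one, mul_smul_comm, mul_one]

lemma ks_comp_add (Q : QuadraticForm ℚ V) (v₀ u w : V) :
    KS.ksEmbedding Q v₀ u ∘ₗ KS.ksEmbedding Q v₀ w + KS.ksEmbedding Q v₀ w ∘ₗ KS.ksEmbedding Q v₀ u
      = (Q v₀ * QuadraticMap.polar Q u w) • LinearMap.id := by
  apply LinearMap.ext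
  intro x
  apply Subtype.ext
  rw [LinearMap.add_apply, LinearMap.comp_apply, LinearMap.comp_apply]
  change ((KS.ksEmbedding Q v₀ u (KS.ksEmbedding Q v₀ w x) : even Q) : CliffordAlgebra Q) +
    ((KS.ksEmbedding Q v₀ w (KS.ksEmbedding Q v₀ u x) : even Q) : CliffordAlgebra Q) =
    (Q v₀ * QuadraticMap.polar Q u w) • (x : CliffordAlgebra Q)
  rw [ks_comp_apply, ks_comp_apply, ← smul_add, ← add_mul, ι_mul_ι_add_swap,
    Algebra.algebraMap_eq_smul_one, smul_mul_assoc, one_mul, smul_smul]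

instance even_finite [Module.Finite ℚ V] (Q : QuadraticForm ℚ V) : Module.Finite ℚ (even Q) := by
  have : Module.Finite ℚ (CliffordAlgebra Q) := inferInstance
  exact FiniteDimensional.finiteDimensional_submodule (Subalgebra.toSubmodule (even Q))

lemma finrank_even_ne [Module.Finite ℚ V] (Q : QuadraticForm ℚ V) :
    (Module.finrank ℚ (even Q) : ℚ) ≠ 0 := by
  have : Nontrivial (even Q) := inferInstance
  have := Module.finrank_pos (R := ℚ) (M := even Q)
  exact_mod_cast this.ne'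

lemma trace_ks [Module.Finite ℚ V] (Q : QuadraticForm ℚ V) (v₀ u w : V) :
    2 * LinearMap.trace ℚ (even Q) (KS.ksEmbedding Q v₀ u ∘ₗ KS.ksEmbedding Q v₀ w) =
      Q v₀ * Module.finrank ℚ (even Q) * QuadraticMap.polar Q u w := by
  have h := congrArg (LinearMap.trace ℚ (even Q)) (ks_comp_add Q v₀ u w)
  have hc : LinearMap.trace ℚ (even Q) (KS.ksEmbedding Q v₀ w ∘ₗ KS.ksEmbedding Q v₀ u) =
      LinearMap.trace ℚ (even Q) (KS.ksEmbedding Q v₀ u ∘ₗ KS.ksEmbedding Q v₀ w) :=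
    LinearMap.trace_comp_comm' _ _
  rw [map_add, hc, map_smul, LinearMap.trace_id, smul_eq_mul] at h
  rw [two_mul, h]
  ring

end Trace

section Hodge
variable {V V' : Type} [AddCommGroup V] [Module ℚ V] [AddCommGroup V'] [Module ℚ V'] {r r' : ℤ}

/-- an injective map is nonzero on the one dimensional piece -/
lemma exists_ne (X : KS.PolarizedK3 V r) (f : V →ₗ[ℚ] V') (hf : Function.Injective f) :
    ∃ w ∈ X.piece (r + 1), f.baseChange ℂ w ≠ 0 := by
  have h1 := X.finrank_piece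
  have hne : X.piece (r + 1) ≠ ⊥ := by
    intro h
    rw [h, finrank_bot] at h1
    exact zero_ne_one h1
  obtain ⟨w, hw, hw0⟩ := Submodule.exists_mem_ne_zero_of_ne_bot hne
  refine ⟨w, hw, fun h => hw0 ?_⟩
  have hinj : Function.Injective (f.baseChange ℂ) :=
    Module.Flat.lTensor_preserves_injective_linearMap (M := ℂ) _ hf
  apply hinj
  rw [h, map_zero]

end Hodge

section Funct
open Pool.Agent.H24.KSS

/-- functoriality of the Kuga-Satake embedding (helper24), with maps between the types `EvenCl` -/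
lemma funct {W V V' : Type} [AddCommGroup W] [Module ℚ W] [Module.Finite ℚ W]
    [AddCommGroup V] [Module ℚ V] [Module.Finite ℚ V]
    [AddCommGroup V'] [Module ℚ V'] [Module.Finite ℚ V'] {s r r' : ℤ}
    (Z : PolarizedK3 W s) (X : PolarizedK3 V r) (X' : PolarizedK3 V' r')
    (g : W →ₗ[ℚ] V) (hg : IsHodgeMorphism Z.toHodgeStructure X.toHodgeStructure (r - s) g)
    (hne : ∃ w ∈ Z.old.piece (s + 1), g.baseChange ℂ w ≠ 0)
    (h : W →ₗ[ℚ] V') (hh : IsHodgeMorphism Z.toHodgeStructure X'.toHodgeStructure (r' - s) h)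
    (hinj : Function.Injective h) (v₀ : V) (v₀' : V') (h0 : X'.form v₀' ≠ 0) :
    IsSumOfTransforms (kugaSatake X) (kugaSatake X')
      (fun w => ksMul X.form v₀ (g w)) (fun w => ksMul X'.form v₀' (h w)) := by
  obtain ⟨n, α, β, hα, hβ, hF⟩ :=
    Pool.Agent.H24.KS.functoriality_sum Z.old X.old X'.old g hg hne h hh hinj v₀ v₀' h0
  exact ⟨n, α, β, hα, hβ, hF⟩

end Funct

end Pool.Agent.H19.KSE
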